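import Pool.Agent.JZ.LA3
import Pool.Agent.CUL.G6

/-!
# [JZ-A4] the sum `T` is as divisible by `λ` as possible iff the unit is not `≡ 1` modulo `λ 𝔪`
-/

set_option autoImplicit false

open scoped Classical ComplexConjugate

namespace JZ

open CM27 CU CUL

section

variable (A : ValuationSubring ℂ) (hA : A.valuation 3 < 1)

/-- `emb c` in `A` -/
noncomputable def embA (c : Eis) : A := ⟨emb c, (ValuationSubring.valuation_le_one_iff A _).1 (w_emb_le A c)⟩

theorem embA_coe (c : Eis) : ((embA A c : A) : ℂ) = emb c := rfl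

include hA in
theorem a4_int (n : ℤ) : ((n : IsLocalRing.ResidueField A)) ^ 3 = n := by
  have h3 := rsd_three A hA
  have h : (3 : ℤ) ∣ n ^ 3 - n := by
    have h1 : n % 3 = 0 ∨ n % 3 = 1 ∨ n % 3 = 2 := by omega
    obtain ⟨q, hq⟩ : ∃ q, q = n / 3 := ⟨_, rfl⟩
    have h2 : n = 3 * q + n % 3 := by omega
    rcases h1 with h1 | h1 | h1
    · rw [h2, h1]
      exact ⟨9 * q ^ 3 - q, by ring⟩
    · rw [h2, h1]
      exact ⟨9 * q ^ 3 + 9 * q ^ 2 + 2 * q, by ring⟩
    · rw [h2, h1]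
      exact ⟨9 * q ^ 3 + 18 * q ^ 2 + 11 * q + 2, by ring⟩
  obtain ⟨m, hm⟩ := h
  have h4 : ((n ^ 3 - n : ℤ) : IsLocalRing.ResidueField A) = 0 := by
    rw [hm]
    push_cast
    rw [h3, zero_mul]
  push_cast at h4
  linear_combination h4

include hA in
theorem a4_emb (c : Eis) : rsd A (embA A c) ^ 3 = rsd A (embA A c) := by
  have e : embA A c = (c.re : A) + (c.im : A) * wA A := by
    apply Subtype.ext
    rw [embA_coe, emb_apply]
    push_cast
    rfl
  have h : rsd A (embA A c) = ((c.re + c.im : ℤ) : IsLocalRing.ResidueField A) := by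
    rw [e, map_add, map_mul, rsd_w A hA, mul_one, map_intCast, map_intCast]
    push_cast
    rfl
  rw [h, a4_int A hA]

include hA in
theorem a4_KK {z : A} (hz : (z : ℂ) ∈ CF.KK) : rsd A z ^ 3 = rsd A z := by
  by_cases h0 : (z : ℂ) = 0
  · have : z = 0 := Subtype.ext h0
    rw [this, map_zero]
    norm_num
  have h1 : ∃ (n : ℕ) (a : Eis), n ≠ 0 ∧ (n : ℂ) * (z : ℂ) = emb a := by
    obtain ⟨x, y, hxy⟩ := (mem_KK (z : ℂ)).1 hz
    rw [hxy]
    refine ⟨x.den * y.den, ⟨x.num * y.den, y.num * x.den⟩,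
      mul_ne_zero x.den_nz y.den_nz, ?_⟩
    rw [emb_apply]
    have hx : (x : ℂ) * x.den = x.num := by exact_mod_cast Rat.mul_den_eq_num x
    have hy : (y : ℂ) * y.den = y.num := by exact_mod_cast Rat.mul_den_eq_num y
    push_cast
    rw [← hx, ← hy]
    ring
  obtain ⟨n, a, hn, hna⟩ := h1
  have hnC : (n : ℂ) ≠ 0 := Nat.cast_ne_zero.2 hn
  have hn0 : (n : Eis) ≠ 0 := by
    intro h
    have := congrArg emb h
    rw [map_natCast, map_zero] at this
    exact hnC this
  have ha : a ≠ 0 := by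
    rintro rfl
    rw [map_zero] at hna
    exact (mul_ne_zero hnC h0) hna
  obtain ⟨l, b, hb, hbl⟩ := g6_split hn0
  obtain ⟨k, c, hc, hcl⟩ := g6_split ha
  have hbC : (n : ℂ) = emb la ^ l * emb b := by
    have := congrArg emb hb
    rwa [map_natCast, map_mul, map_pow] at this
  have hcC : emb a = emb la ^ k * emb c := by rw [hc, map_mul, map_pow]
  have hl := w_la_lt A hA
  have hl0 : 0 < A.valuation (emb la) := by
    rw [Valuation.pos_iff]
    exact la_ne
  rw [hbC, hcC] at hna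
  have hv : A.valuation (emb la) ^ l * A.valuation (z : ℂ) = A.valuation (emb la) ^ k := by
    have := congrArg A.valuation hna
    rw [map_mul, map_mul, map_mul, map_pow, map_pow, w_emb_unit A hA b hbl, w_emb_unit A hA c hcl,
      mul_one, mul_one] at this
    exact this
  have hkl : l ≤ k := by
    by_contra hlt
    push Not at hlt
    have h2 : A.valuation (emb la) ^ l < A.valuation (emb la) ^ k :=
      pow_lt_pow_right_of_lt_one₀ hl0 hl hlt
    have h3 : A.valuation (emb la) ^ l * A.valuation (z : ℂ) ≤ A.valuation (emb la) ^ l * 1 :=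
      mul_le_mul' le_rfl (a3_le A z)
    rw [hv, mul_one] at h3
    exact absurd h3 (not_le.2 h2)
  obtain ⟨m, rfl⟩ := Nat.exists_eq_add_of_le hkl
  have h5 : emb b * (z : ℂ) = emb (la ^ m * c) := by
    apply mul_left_cancel₀ (pow_ne_zero l la_ne)
    rw [map_mul, map_pow]
    linear_combination hna
  have h6 : embA A b * z = embA A (la ^ m * c) := Subtype.ext (by
    rw [MulMemClass.coe_mul, embA_coe, embA_coe]
    exact h5)
  have h7 := congrArg (rsd A) h6
  rw [map_mul] at h7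
  have hb1 := a4_emb A hA b
  have hc1 := a4_emb A hA (la ^ m * c)
  have hb0 : rsd A (embA A b) ≠ 0 := by
    intro h
    rw [rsd_eq_zero, embA_coe, w_emb_unit A hA b hbl] at h
    exact lt_irrefl _ h
  apply mul_left_cancel₀ hb0
  calc rsd A (embA A b) * rsd A z ^ 3 = (rsd A (embA A b) * rsd A z) ^ 3 := by rw [mul_pow, hb1]
    _ = rsd A (embA A b) * rsd A z := by rw [h7, hc1]

theorem a4_unit_iff (x : A) : A.valuation (x : ℂ) = 1 ↔ rsd A x ≠ 0 := by
  rw [Ne, rsd_eq_zero, not_lt]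
  exact ⟨fun h => h.ge, fun h => le_antisymm (a3_le A x) h⟩

include hA in
/-- the residue of `B = (1 - e')/λ` for `e' = u₁ + u₂ s` of norm `1` -/
theorem a4_B {η : ℤ} (hη : η = 1 ∨ η = -1) {D : Eis} (hD : (3 : Eis) ∣ D - (η : Eis)) {sD u₁ u₂ : ℂ}
    (hs : sD ^ 2 = emb D) (h1 : u₁ ∈ CF.KK) (h2 : u₂ ∈ CF.KK) (hnorm : u₁ ^ 2 - u₂ ^ 2 * emb D = 1)
    {B : A} (hB : emb la * (B : ℂ) = 1 - (u₁ + u₂ * sD)) :
    rsd A B ^ 3 = (η : IsLocalRing.ResidueField A) * rsd A B := by
  have hl := w_la_lt A hA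
  have hla : emb la ≠ 0 := la_ne
  -- `D` is a unit
  have vD3 : A.valuation (emb D - (η : ℂ)) < 1 := by
    obtain ⟨c, hc⟩ := hD
    have := congrArg emb hc
    rw [map_sub, map_intCast, map_mul, map_ofNat] at this
    rw [this, map_mul]
    exact lt_of_le_of_lt (mul_le_mul' le_rfl (w_emb_le A c)) (by rwa [mul_one])
  have vη : A.valuation ((η : ℤ) : ℂ) = 1 := by
    rcases hη with rfl | rfl
    · simp
    · simp
  have vD : A.valuation (emb D) = 1 := by
    have e : emb D = (emb D - (η : ℂ)) + (η : ℂ) := by ring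
    rw [e, Valuation.map_add_eq_of_lt_right, vη]
    rwa [vη]
  have vs : A.valuation sD = 1 := by
    have h : A.valuation sD ^ 2 = 1 := by rw [← map_pow, hs, vD]
    exact (pow_eq_one_iff.1 h).resolve_right (by norm_num)
  have s0 : sD ≠ 0 := by
    rintro rfl
    rw [map_zero] at vs
    exact zero_ne_one vs
  have hmul : (u₁ + u₂ * sD) * (u₁ - u₂ * sD) = 1 := by
    linear_combination hnorm - u₂ ^ 2 * hs
  obtain ⟨e, he⟩ : ∃ e, e = u₁ + u₂ * sD := ⟨_, rfl⟩
  rw [← he] at hB hmul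
  have he1 : e = 1 - emb la * (B : ℂ) := by rw [hB]; ring
  have ve : A.valuation e = 1 := by
    rw [he1]
    apply Valuation.map_one_sub_of_lt
    rw [map_mul]
    exact lt_of_le_of_lt (mul_le_mul' le_rfl (a3_le A B)) (by rwa [mul_one])
  have e0 : e ≠ 0 := by
    rintro rfl
    rw [map_zero] at ve
    exact zero_ne_one ve
  have hu1 : 2 * u₁ = e + e⁻¹ := by
    have : u₁ - u₂ * sD = e⁻¹ := eq_inv_of_mul_eq_one_right hmul
    rw [← this, he]
    ring
  -- `b₂ = - u₂ / λ`, `b₂ s ≡ B`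
  have v2 := a1_two A hA
  have hb : A.valuation ((B : ℂ) - (-u₂ / emb la) * sD) < 1 := by
    have e1 : (B : ℂ) - (-u₂ / emb la) * sD = -(emb la * (B : ℂ) ^ 2 / (2 * e)) := by
      have h5 : (B : ℂ) = (1 - e) / emb la := by rw [he1]; field_simp; ring
      have h6 : u₁ = (e + e⁻¹) / 2 := by rw [← hu1]; ring
      have h7 : u₂ * sD = e - u₁ := by rw [he]; ring
      have h8 : (-u₂ / emb la) * sD = -(u₂ * sD) / emb la := by ring
      rw [h8, h7, h6, h5]
      field_simp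
      ring
    rw [e1, Valuation.map_neg, map_div₀, map_mul, map_mul, v2, ve, one_mul, div_one, map_pow]
    exact lt_of_le_of_lt (mul_le_mul' le_rfl (pow_le_one₀ zero_le (a3_le A B))) (by rwa [mul_one])
  have vb : A.valuation (-u₂ / emb la) ≤ 1 := by
    have h5 : A.valuation ((-u₂ / emb la) * sD) ≤ 1 := by
      have e2 : (-u₂ / emb la) * sD = (B : ℂ) - ((B : ℂ) - (-u₂ / emb la) * sD) := by ring
      rw [e2]
      exact (A.valuation.map_sub _ _).trans (max_le (a3_le A B) hb.le)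
    rwa [map_mul, vs, mul_one] at h5
  obtain ⟨b2, hb2⟩ : ∃ b2 : A, (b2 : ℂ) = -u₂ / emb la :=
    ⟨⟨_, (ValuationSubring.valuation_le_one_iff A _).1 vb⟩, rfl⟩
  obtain ⟨sA, hsA⟩ : ∃ sA : A, (sA : ℂ) = sD :=
    ⟨⟨_, (ValuationSubring.valuation_le_one_iff A _).1 vs.le⟩, rfl⟩
  have hBr : rsd A B = rsd A (b2 * sA) := by
    rw [rsd_eq, MulMemClass.coe_mul, hb2, hsA]
    exact hb
  have hb2K : (b2 : ℂ) ∈ CF.KK := by
    rw [hb2]
    apply CF.KK.div_mem (CF.KK.neg_mem h2)
    rw [mem_KK]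
    exact ⟨1, -1, by rw [emb_la]; push_cast; ring⟩
  have hb3 := a4_KK A hA hb2K
  have hs2 : rsd A sA ^ 2 = (η : IsLocalRing.ResidueField A) := by
    rw [← map_pow, ← map_intCast (rsd A), rsd_eq]
    push_cast
    rw [hsA, hs]
    exact vD3
  rw [hBr, map_mul, mul_pow, hb3]
  linear_combination rsd A b2 * rsd A sA * hs2

include hA in
/-- [JZ-A] -/
theorem A_main {r : A} (hr : 4 * r ^ 3 = -1) {ι : Type*} (s : Finset ι) (X ψ : ι → A) (n : ι → ℤ)
    (x : ι → ℂ) (hx : ∀ c ∈ s, x c = (r : ℂ) + emb la * (X c : ℂ)) (hn : ∀ c ∈ s, n c = 1 ∨ n c = -1)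
    (hn0 : ∑ c ∈ s, n c = 0) (hψ : ∑ c ∈ s, ψ c = 0)
    (hψn : ∀ c ∈ s, rsd A (ψ c) = (n c : IsLocalRing.ResidueField A)) {k j : ℕ} {η : ℤ}
    (hcase : (η = -1 ∧ k = 0) ∨ (η = -1 ∧ k = 2 ∧ j = 0) ∨ (η = 1 ∧ k = 1 ∧ j = 0) ∨
      (η = 1 ∧ k = 2 ∧ j = 0))
    {D : Eis} (hD : (3 : Eis) ∣ D - (η : Eis)) {sD u₁ u₂ : ℂ} (hs : sD ^ 2 = emb D)
    (h1 : u₁ ∈ CF.KK) (h2 : u₂ ∈ CF.KK) (hnorm : u₁ ^ 2 - u₂ ^ 2 * emb D = 1)
    (he : w ^ j * ∏ c ∈ s, x c ^ n c = u₁ + u₂ * sD) :
    A.valuation (emb la * ∑ c ∈ s, (ψ c : ℂ) * (x c ^ k / (1 + x c ^ 3))) ≤ 1 ∧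
    A.valuation (u₁ + u₂ * sD - 1) ≤ A.valuation (emb la) ∧
    (A.valuation (emb la * ∑ c ∈ s, (ψ c : ℂ) * (x c ^ k / (1 + x c ^ 3))) = 1 ↔
      A.valuation (u₁ + u₂ * sD - 1) = A.valuation (emb la)) := by
  have h3 := rsd_three A hA
  have hrC : 4 * (r : ℂ) ^ 3 = -1 := by
    have := congrArg (fun y : A => (y : ℂ)) hr
    push_cast at this
    exact this
  have hr1 : rsd A r = -1 := by
    rw [← map_one (rsd A), ← map_neg, rsd_eq]
    push_cast
    rw [sub_neg_eq_add]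
    exact a1_r_one A hA hrC
  have hk : k < 3 := by omega
  have hη : η = 1 ∨ η = -1 := by omega
  obtain ⟨t, ht, htr⟩ := a2_T A hA hr hr1 s X ψ (fun c => (n c : A)) x hx hk hψ
    (fun c hc => by rw [hψn c hc, map_intCast]) (fun c hc => by
      rcases hn c hc with h | h
      · left; rw [h]; push_cast; rfl
      · right; rw [h]; push_cast; rfl)
  obtain ⟨B0, hB0, hB0r⟩ := a3_e A hA hr s X n x hx hn hn0
  -- `B' = (1 - w^j e)/λ`
  obtain ⟨B, hB⟩ : ∃ B : A, B = ∑ i ∈ Finset.range j, wA A ^ i + wA A ^ j * B0 := ⟨_, rfl⟩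
  have hBe : emb la * (B : ℂ) = 1 - (u₁ + u₂ * sD) := by
    rw [← he, hB]
    have e1 : (wA A : ℂ) = w := rfl
    push_cast
    rw [e1]
    have e2 : emb la * ∑ i ∈ Finset.range j, w ^ i = 1 - w ^ j := by
      have := mul_neg_geom_sum w j
      rw [emb_la]
      exact this
    rw [mul_add, e2]
    linear_combination w ^ j * hB0
  have hBr : rsd A B = (j : IsLocalRing.ResidueField A) + rsd A B0 := by
    rw [hB, map_add, map_mul, map_pow, map_sum]
    simp only [map_pow, rsd_w A hA, one_pow, one_mul, Finset.sum_const, Finset.card_range, nsmul_eq_mul,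
      mul_one]
  have hB3 := a4_B A hA hη hD hs h1 h2 hnorm hBe
  have hj3 : (j : IsLocalRing.ResidueField A) ^ 3 = j := by
    have := a4_int A hA (j : ℤ)
    simpa using this
  -- the residue of `t` is `± B`
  have key : rsd A t = rsd A B ∨ rsd A t = -rsd A B := by
    rw [htr, ← hB0r]
    have hB0' : rsd A B0 = rsd A B - j := by rw [hBr]; ring
    have cube : (rsd A B - (j : IsLocalRing.ResidueField A)) ^ 3 = rsd A B ^ 3 - (j : IsLocalRing.ResidueField A) ^ 3 := by
      linear_combination (-(rsd A B) ^ 2 * j + rsd A B * (j : IsLocalRing.ResidueField A) ^ 2) * h3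
    rcases hcase with ⟨rfl, rfl⟩ | ⟨rfl, rfl, rfl⟩ | ⟨rfl, rfl, rfl⟩ | ⟨rfl, rfl, rfl⟩
    · right
      simp only [a2_p]
      rw [hB0', cube, hj3, hB3]
      push_cast
      linear_combination rsd A B * h3
    · left
      simp only [a2_p]
      rw [hB0', Nat.cast_zero, sub_zero, hB3]
      push_cast
      ring
    · right
      simp only [a2_p]
      rw [hB0', Nat.cast_zero, sub_zero, hB3]
      push_cast
      linear_combination rsd A B * h3
    · right
      simp only [a2_p]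
      rw [hB0', Nat.cast_zero, sub_zero, hB3]
      push_cast
      ring
  have hl0 : A.valuation (emb la) ≠ 0 := by
    rw [Valuation.ne_zero_iff]
    exact la_ne
  have hv : A.valuation (u₁ + u₂ * sD - 1) = A.valuation (emb la) * A.valuation (B : ℂ) := by
    rw [← map_mul, hBe, ← Valuation.map_neg]
    congr 1
    ring
  refine ⟨?_, ?_, ?_⟩
  · rw [← ht]
    exact a3_le A t
  · rw [hv]
    calc A.valuation (emb la) * A.valuation (B : ℂ) ≤ A.valuation (emb la) * 1 :=
          mul_le_mul' le_rfl (a3_le A B)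
      _ = _ := mul_one _
  · rw [← ht, a4_unit_iff, hv]
    have h5 : A.valuation (emb la) * A.valuation (B : ℂ) = A.valuation (emb la) ↔ rsd A B ≠ 0 := by
      rw [← a4_unit_iff]
      constructor
      · intro h
        exact mul_left_cancel₀ hl0 (by rw [h, mul_one])
      · intro h
        rw [h, mul_one]
    rw [h5]
    rcases key with h | h
    · rw [h]
    · rw [h, neg_ne_zero]

end

end JZ
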