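import Pool.Agent.JZ.I1
import Pool.Agent.CUL.X1

/-!
# [JZ-I2] `x` is a unit at the torsion points outside of the residue characteristic
-/

set_option autoImplicit false

open scoped Classical ComplexConjugate

namespace JZ

open CM27 CU CUL

/-- the parameter at the origin (`0` at the lattice points) -/
noncomputable def tt (z : ℂ) : ℂ := xw z / yw z

/-- the kernel of reduction -/
def Kr (B : ValuationSubring ℂ) (z : ℂ) : Prop := z ∈ Set.range emb ∨ 1 < B.valuation (xw z)

theorem i2_emb (a : Eis) : tt (emb a) = 0 := by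
  rw [tt, xw_emb, zero_div]

theorem i2_add_emb (z : ℂ) (a : Eis) : tt (z + emb a) = tt z := by
  rw [tt, xw_add, yw_add, tt]

theorem i2_neg (z : ℂ) : tt (-z) = -tt z := by
  rw [tt, xw_neg, yw_neg, tt, div_neg]

theorem i2_w (z : ℂ) : tt (w * z) = w * tt z := by
  rw [tt, xw_w, yw_w, tt, mul_div_assoc]

section

variable {B : ValuationSubring ℂ}

theorem Kr.add_emb {z : ℂ} (h : Kr B z) (a : Eis) : Kr B (z + emb a) := by
  rcases h with ⟨b, rfl⟩ | h
  · exact Or.inl ⟨b + a, map_add _ _ _⟩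
  · right
    rwa [xw_add]

theorem Kr.neg {z : ℂ} (h : Kr B z) : Kr B (-z) := by
  rcases h with ⟨b, rfl⟩ | h
  · exact Or.inl ⟨-b, map_neg _ _⟩
  · right
    rwa [xw_neg]

theorem Kr.w_mul {z : ℂ} (h : Kr B z) : Kr B (w * z) := by
  rcases h with ⟨b, rfl⟩ | h
  · exact Or.inl ⟨om * b, by rw [map_mul, CUL.emb_om]⟩
  · right
    rwa [xw_w, map_mul, w_w, one_mul]

theorem i2_add (h2 : B.valuation 2 = 1) {u v : ℂ} (hu : Kr B u) (hv : Kr B v) :
    Kr B (u + v) ∧ ∀ r, 0 < r → B.valuation (tt u) ≤ r → B.valuation (tt v) ≤ r →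
      B.valuation (tt (u + v) - tt u - tt v) < r := by
  by_cases lu : u ∈ Set.range emb
  · obtain ⟨a, rfl⟩ := lu
    refine ⟨by rw [add_comm]; exact hv.add_emb a, ?_⟩
    intro r hr _ _
    rw [add_comm, i2_add_emb, i2_emb]
    simpa using hr
  by_cases lv : v ∈ Set.range emb
  · obtain ⟨a, rfl⟩ := lv
    refine ⟨hu.add_emb a, ?_⟩
    intro r hr _ _
    rw [i2_add_emb, i2_emb]
    simpa using hr
  by_cases luv : u + v ∈ Set.range emb
  · refine ⟨Or.inl luv, ?_⟩
    intro r hr _ _
    obtain ⟨a, ha⟩ := luv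
    have e : v = -u + emb a := by rw [ha]; ring
    rw [← ha, i2_emb, e, i2_add_emb, i2_neg]
    simpa using hr
  · have hxu : 1 < B.valuation (xw u) := hu.resolve_left lu
    have hxv : 1 < B.valuation (xw v) := hv.resolve_left lv
    obtain ⟨L, N, l1, l2, l3, e1, e2, e3⟩ := i1_line lu lv luv
    have c3 : (-yw (u + v)) ^ 2 = 4 * xw (u + v) ^ 3 + 1 := by
      rw [neg_sq]
      exact weq _ luv
    obtain ⟨k1, k2⟩ := i1_core B h2 (weq u lu) (weq v lv) c3 l1 l2 l3 e1 e2 e3 hxu hxv
    refine ⟨Or.inr k1, ?_⟩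
    intro r hr hur hvr
    have e : tt (u + v) - tt u - tt v =
        -(xw u / yw u + xw v / yw v + xw (u + v) / -yw (u + v)) := by
      rw [tt, tt, tt, div_neg]
      ring
    rw [e, Valuation.map_neg]
    exact lt_of_lt_of_le k2 (max_le hur hvr)

/-- the value of `t` at a multiple, modulo smaller elements -/
def i2_P (B : ValuationSubring ℂ) (z : ℂ) (a : Eis) : Prop :=
  Kr B (emb a * z) ∧ B.valuation (tt (emb a * z) - emb a * tt z) < B.valuation (tt z)

theorem i2_emb_le (m : Eis) : B.valuation (emb m) ≤ 1 := w_emb_le B m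

theorem i2_le {z : ℂ} {a : Eis} (h : i2_P B z a) :
    B.valuation (tt (emb a * z)) ≤ B.valuation (tt z) := by
  have e : tt (emb a * z) = (tt (emb a * z) - emb a * tt z) + emb a * tt z := by ring
  rw [e]
  refine (B.valuation.map_add _ _).trans (max_le h.2.le ?_)
  rw [map_mul]
  calc B.valuation (emb a) * B.valuation (tt z) ≤ 1 * B.valuation (tt z) :=
        mul_le_mul' (i2_emb_le a) le_rfl
    _ = _ := one_mul _

theorem i2_P_add (h2 : B.valuation 2 = 1) {z : ℂ} (h0 : 0 < B.valuation (tt z)) {a b : Eis}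
    (ha : i2_P B z a) (hb : i2_P B z b) : i2_P B z (a + b) := by
  have e : emb (a + b) * z = emb a * z + emb b * z := by rw [map_add]; ring
  obtain ⟨k1, k2⟩ := i2_add h2 ha.1 hb.1
  refine ⟨by rw [e]; exact k1, ?_⟩
  rw [e, map_add]
  have e2 : tt (emb a * z + emb b * z) - (emb a + emb b) * tt z =
      (tt (emb a * z + emb b * z) - tt (emb a * z) - tt (emb b * z)) +
      ((tt (emb a * z) - emb a * tt z) + (tt (emb b * z) - emb b * tt z)) := by ring
  rw [e2]
  refine lt_of_le_of_lt (B.valuation.map_add _ _) (max_lt (k2 _ h0 (i2_le ha) (i2_le hb)) ?_)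
  exact lt_of_le_of_lt (B.valuation.map_add _ _) (max_lt ha.2 hb.2)

theorem i2_P_neg {z : ℂ} {a : Eis} (ha : i2_P B z a) : i2_P B z (-a) := by
  have e : emb (-a) * z = -(emb a * z) := by rw [map_neg]; ring
  refine ⟨by rw [e]; exact ha.1.neg, ?_⟩
  rw [e, i2_neg, map_neg]
  have e2 : -tt (emb a * z) - -emb a * tt z = -(tt (emb a * z) - emb a * tt z) := by ring
  rw [e2, Valuation.map_neg]
  exact ha.2

theorem i2_P_om {z : ℂ} {a : Eis} (ha : i2_P B z a) : i2_P B z (om * a) := by
  have e : emb (om * a) * z = w * (emb a * z) := by rw [map_mul, CUL.emb_om]; ring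
  refine ⟨by rw [e]; exact ha.1.w_mul, ?_⟩
  rw [e, i2_w, map_mul, CUL.emb_om]
  have e2 : w * tt (emb a * z) - w * emb a * tt z = w * (tt (emb a * z) - emb a * tt z) := by ring
  rw [e2, map_mul, w_w, one_mul]
  exact ha.2

theorem i2_P_one {z : ℂ} (hz : Kr B z) (h0 : 0 < B.valuation (tt z)) : i2_P B z 1 := by
  refine ⟨by rw [map_one, one_mul]; exact hz, ?_⟩
  rw [map_one, one_mul, one_mul, sub_self, map_zero]
  exact h0

theorem i2_P_zero {z : ℂ} (h0 : 0 < B.valuation (tt z)) : i2_P B z 0 := by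
  refine ⟨Or.inl ⟨0, by rw [map_zero, zero_mul]⟩, ?_⟩
  have e : (0 : ℂ) = emb 0 := (map_zero _).symm
  rw [map_zero, zero_mul, zero_mul, sub_zero]
  rw [e, i2_emb, map_zero]
  exact h0

theorem i2_P_all (h2 : B.valuation 2 = 1) {z : ℂ} (hz : Kr B z) (h0 : 0 < B.valuation (tt z)) (a : Eis) :
    i2_P B z a := by
  have hnat : ∀ n : ℕ, i2_P B z (n : Eis) := by
    intro n
    induction n with
    | zero => rw [Nat.cast_zero]; exact i2_P_zero h0
    | succ n ih => rw [Nat.cast_succ]; exact i2_P_add h2 h0 ih (i2_P_one hz h0)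
  have hint : ∀ n : ℤ, i2_P B z (n : Eis) := by
    intro n
    obtain ⟨k, rfl | rfl⟩ := n.eq_nat_or_neg
    · simpa using hnat k
    · have := i2_P_neg (hnat k)
      simpa using this
  have e : a = (a.re : Eis) + om * (a.im : Eis) := by
    apply emb_injective
    rw [map_add, map_mul, CUL.emb_om, map_intCast, map_intCast, emb_apply]
    ring
  rw [e]
  exact i2_P_add h2 h0 (hint _) (i2_P_om (hint _))

/-- a point of order `m` is not in the kernel of reduction if `m` is a unit -/
theorem i2_main (h2 : B.valuation 2 = 1) {z : ℂ} (hz : Nl z) {m : Eis}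
    (hm : emb m * z ∈ Set.range emb) (hv : B.valuation (emb m) = 1) : B.valuation (xw z) ≤ 1 := by
  by_contra h
  push Not at h
  have hy := i1_t B h2 (weq z hz) h
  have h0 : 0 < B.valuation (tt z) := hy.1
  have h1 := (i2_P_all h2 (Or.inr h) h0 m).2
  obtain ⟨b, hb⟩ := hm
  rw [← hb, i2_emb, zero_sub, Valuation.map_neg, map_mul, hv, one_mul] at h1
  exact lt_irrefl _ h1

theorem i2_unit {p m : Eis} (hp : B.valuation (emb p) < 1) (h : IsCoprime m p) :
    B.valuation (emb m) = 1 := by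
  refine le_antisymm (i2_emb_le m) ?_
  by_contra hlt
  push Not at hlt
  obtain ⟨a, b, hab⟩ := h
  have h1 : B.valuation (emb (a * m + b * p)) < 1 := by
    rw [map_add, map_mul, map_mul]
    refine lt_of_le_of_lt (B.valuation.map_add _ _) (max_lt ?_ ?_)
    · rw [map_mul]
      exact lt_of_le_of_lt (mul_le_mul' (i2_emb_le a) le_rfl) (by rwa [one_mul])
    · rw [map_mul]
      exact lt_of_le_of_lt (mul_le_mul' (i2_emb_le b) le_rfl) (by rwa [one_mul])
  rw [hab, map_one, map_one] at h1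
  exact lt_irrefl _ h1

/-- [JZ-I] `x` is a unit at the torsion points of order prime to `λ p`, for a prime `p` not dividing `6`. -/
theorem x_unit {p : Eis} (hp : Prime p) (h6 : ¬ p ∣ 6) (hB : B.valuation (emb p) < 1) {z : ℂ} (hz : Nl z)
    {m : Eis} (hm : emb m * z ∈ Set.range emb) (hmp : IsCoprime m p) (hml : ¬ la ∣ m) :
    B.valuation (xw z) = 1 := by
  have hpid : IsPrincipalIdealRing Eis := eis_pid
  have hdom : IsDomain Eis := eis_isDomain
  have hcop : ∀ k : Eis, ¬ p ∣ k → IsCoprime k p := fun k hk =>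
    ((hp.irreducible.coprime_iff_not_dvd).2 hk).symm
  have d2 : ¬ p ∣ 2 := fun h => h6 (h.trans ⟨3, by norm_num⟩)
  have h2 : B.valuation 2 = 1 := by
    have := i2_unit hB (hcop 2 d2)
    rwa [map_ofNat] at this
  have hla3 : la ∣ 3 := ⟨_, u7_three⟩
  have d3 : ¬ p ∣ la := fun h => h6 ((h.trans hla3).trans ⟨2, by norm_num⟩)
  have vla : B.valuation (emb la) = 1 := i2_unit hB (hcop la d3)
  have vm : B.valuation (emb m) = 1 := i2_unit hB hmp
  refine le_antisymm (i2_main h2 hz hm vm) ?_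
  by_contra hlt
  push Not at hlt
  -- `λ z` is not in the lattice
  have hlz : Nl (emb la * z) := by
    rintro ⟨b, hb⟩
    apply hz
    obtain ⟨a, ha⟩ := hm
    have hco : IsCoprime m la := ((CUL.la_prime.irreducible.coprime_iff_not_dvd).2 hml).symm
    obtain ⟨c, d, hcd⟩ := hco
    refine ⟨c * a + d * b, ?_⟩
    have h5 : emb c * emb m + emb d * emb la = 1 := by
      rw [← map_mul, ← map_mul, ← map_add, hcd, map_one]
    rw [map_add, map_mul, map_mul, ha, hb]
    linear_combination z * h5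
  have hx0 : xw z ≠ 0 := by
    rcases u4_la_cases z with ⟨_, h⟩ | ⟨_, h, _⟩
    · exact absurd h hlz
    · exact h
  have hmz : emb m * (emb la * z) ∈ Set.range emb := by
    obtain ⟨a, ha⟩ := hm
    exact ⟨la * a, by rw [map_mul, ha]; ring⟩
  have h5 := i2_main h2 hlz hmz vm
  rw [xw_la, map_div₀, map_mul, map_pow, map_pow, vla, one_pow, one_mul, u7_lt B hlt] at h5
  have h6' : B.valuation (xw z) ≠ 0 := by
    rw [Valuation.ne_zero_iff]
    exact hx0
  have h7 : B.valuation (xw z) ^ 2 < 1 := pow_lt_one₀ zero_le hlt (by norm_num)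
  have h8 : (1 : B.ValueGroup) < 1 / B.valuation (xw z) ^ 2 := by
    rw [one_div]
    exact (one_lt_inv₀ (zero_lt_iff.2 (pow_ne_zero 2 h6'))).2 h7
  exact absurd h5 (not_le.2 h8)

end

end JZ
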