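import Pool.Agent.CU.Base

/-!
# [JZ] the sextic twists `y² = x³ + D` over `ℚ(ω)`: common definitions
-/

set_option autoImplicit false

namespace JZ

open CM27 CU

/-- The discriminant of the binary cubic form `a x³ + b x² y + c x y² + d y³`. -/
def disc {R : Type*} [CommRing R] (a b c d : R) : R :=
  b ^ 2 * c ^ 2 - 4 * a * c ^ 3 - 4 * b ^ 3 * d - 27 * a ^ 2 * d ^ 2 + 18 * a * b * c * d

/-- The local condition at `λ`: `D ≡ η mod 3` with `η = ± 1`, and `D ≢ η + λ² mod λ³`. -/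
def CondLa (D : Eis) : Prop :=
  ∃ η : Eis, (η = 1 ∨ η = -1) ∧ (3 : Eis) ∣ D - η ∧ ¬ la ^ 3 ∣ D - η - la ^ 2

/-- The local condition at `2`: `D` is not a square modulo `4`. -/
def CondTwo (D : Eis) : Prop := ∀ m : Eis, ¬ (4 : Eis) ∣ D - m ^ 2

/-- The class of the `D` considered. -/
def Cl (D : Eis) : Prop := Squarefree D ∧ CondLa D ∧ CondTwo D

/-- There is a binary cubic form `a x³ + λ b x² y + λ² c x y² + λ d y³` of discriminant `4 λ⁴ D` over
`ℤ[ω]` without a zero over `ℚ(ω)`. -/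
def HasForm (D : Eis) : Prop :=
  ∃ a b c d : Eis, disc a (la * b) (la ^ 2 * c) (la * d) = 4 * la ^ 4 * D ∧
    ∀ x y : Eis, a * x ^ 3 + la * b * x ^ 2 * y + la ^ 2 * c * x * y ^ 2 + la * d * y ^ 3 = 0 →
      x = 0 ∧ y = 0

end JZ
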