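import Pool.Agent.CUL.U7

/-!
# [JZ-I1] the kernel of reduction of `y² = 4 x³ + 1` modulo a place prime to `2`
-/

set_option autoImplicit false

open scoped Classical ComplexConjugate

namespace JZ

open CM27 CU CUL

/-- The line through `u` and `v` (the tangent if `u ≡ v`), and Vieta. -/
theorem i1_line {u v : ℂ} (hu : Nl u) (hv : Nl v) (huv : Nl (u + v)) : ∃ L N : ℂ,
    yw u = L * xw u + N ∧ yw v = L * xw v + N ∧ -yw (u + v) = L * xw (u + v) + N ∧
    4 * (xw u + xw v + xw (u + v)) = L ^ 2 ∧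
    2 * (xw u * xw v + (xw u + xw v) * xw (u + v)) = -(L * N) ∧
    4 * (xw u * xw v * xw (u + v)) = N ^ 2 - 1 := by
  have wu := weq u hu
  have wv := weq v hv
  by_cases hx : xw u = xw v
  · -- tangent
    have hd : u - v ∈ Set.range emb := by
      rcases (xw_eq_iff u v hu hv).1 hx with h | h
      · exact h
      · exact absurd h huv
    obtain ⟨a, ha⟩ := hd
    have hua : u = v + emb a := by rw [ha]; ring
    have hy : yw u = yw v := by rw [hua, yw_add]
    have e2 : u + v = 2 * v + emb a := by rw [hua]; ring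
    have hx2 : xw (u + v) = xw (2 * v) := by rw [e2, xw_add]
    have hy2 : yw (u + v) = yw (2 * v) := by rw [e2, yw_add]
    have h2v : 2 * v ∉ Set.range emb := by
      rintro ⟨b, hb⟩
      exact huv ⟨b + a, by rw [e2, map_add, hb]⟩
    have hy0 : yw v ≠ 0 := fun h => h2v ((yw_eq_zero_iff v hv).1 h)
    obtain ⟨p1, p2⟩ := pt_of_not_mem v hv
    obtain ⟨p3, p4⟩ := pt_of_not_mem (2 * v) h2v
    have h1 : pt (2 * v) = pt v + pt v := by rw [two_mul, pt_add]
    have hne : (yw v - 1) / 2 ≠ (E ℂ).toAffine.negY (xw v) ((yw v - 1) / 2) := by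
      rw [a4_negY]
      intro h
      apply hy0
      linear_combination h
    rw [p2, p4, WeierstrassCurve.Affine.Point.add_self_of_Y_ne hne,
      WeierstrassCurve.Affine.Point.some.injEq] at h1
    obtain ⟨h2, h3⟩ := h1
    rw [WeierstrassCurve.Affine.slope_of_Y_ne rfl hne, a4_negY] at h2 h3
    simp only [WeierstrassCurve.Affine.addX, WeierstrassCurve.Affine.addY,
      WeierstrassCurve.Affine.negAddY, WeierstrassCurve.Affine.negY, E] at h2 h3
    have h4 : (3 * xw v ^ 2 + 2 * 0 * xw v + 0 - 0 * ((yw v - 1) / 2)) /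
        ((yw v - 1) / 2 - (-((yw v - 1) / 2) - 1)) = 3 * xw v ^ 2 / yw v := by
      congr 1
      · ring
      · ring
    rw [h4] at h2 h3
    refine ⟨6 * xw v ^ 2 / yw v, yw v - 6 * xw v ^ 2 / yw v * xw v, ?_, ?_, ?_, ?_, ?_, ?_⟩
    · rw [hx, hy]; ring
    · ring
    · rw [hx2, hy2, h2]
      have h5 : yw (2 * v) = 2 * ((yw (2 * v) - 1) / 2) + 1 := by ring
      rw [h5, h3]
      field_simp
      ring
    · rw [hx, hx2, h2]
      field_simp
      ring
    · rw [hx, hx2, h2]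
      field_simp
      ring
    · rw [hx, hx2, h2]
      field_simp
      linear_combination (-yw v ^ 2) * wv
  · -- chord
    have hx' : xw u - xw v ≠ 0 := sub_ne_zero.2 hx
    have h1 := xw_sum hu hv huv hx
    have h2 := yw_sum hu hv huv hx
    obtain ⟨L, hL⟩ : ∃ L, L = (yw u - yw v) / (xw u - xw v) := ⟨_, rfl⟩
    rw [← hL] at h1 h2
    have hL' : L * (xw u - xw v) = yw u - yw v := by
      rw [hL]
      field_simp
    have e1 : 4 * (xw u + xw v + xw (u + v)) = L ^ 2 := by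
      rw [h1]
      ring
    have e2 : 2 * (xw u * xw v + (xw u + xw v) * xw (u + v)) = -(L * (yw u - L * xw u)) := by
      apply mul_left_cancel₀ hx'
      linear_combination (1 / 2) * (yw u + yw v - L * (xw u - xw v)) * hL' + (1 / 2) * wu -
        (1 / 2) * wv + (1 / 2) * (xw u - xw v) * (xw u + xw v) * e1
    refine ⟨L, yw u - L * xw u, ?_, ?_, ?_, e1, e2, ?_⟩
    · ring
    · linear_combination hL'
    · rw [h2]
      ring
    · linear_combination -wu + 2 * xw u * e2 - xw u ^ 2 * e1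


theorem i1_alpha {x1 y1 x2 y2 x3 L N : ℂ} (c1 : y1 ^ 2 = 4 * x1 ^ 3 + 1) (c2 : y2 ^ 2 = 4 * x2 ^ 3 + 1)
    (l1 : y1 = L * x1 + N) (l2 : y2 = L * x2 + N) (e1 : 4 * (x1 + x2 + x3) = L ^ 2)
    (e2 : 2 * (x1 * x2 + (x1 + x2) * x3) = -(L * N)) :
    4 * N * (x1 ^ 2 * y2 ^ 2 + x1 * x2 * y1 * y2 + x2 ^ 2 * y1 ^ 2) +
      L * (y1 ^ 2 * y2 ^ 2 - (y1 ^ 2 + y1 * y2 + y2 ^ 2)) = 0 := by
  by_cases h : x1 = x2
  · subst h
    have hy : y1 = y2 := l1.trans l2.symm
    subst hy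
    have hA : L * y1 = 6 * x1 ^ 2 := by
      linear_combination L * l1 - x1 * e1 + e2
    have h1 : 12 * N * x1 ^ 2 + L * (y1 ^ 2 - 3) = 0 := by
      have hN : N = y1 - L * x1 := by rw [l1]; ring
      rw [hN]
      linear_combination (-2 * y1) * hA + 3 * L * c1
    linear_combination y1 ^ 2 * h1
  · have h' : x1 - x2 ≠ 0 := sub_ne_zero.2 h
    have hL : L * (x1 - x2) = y1 - y2 := by rw [l1, l2]; ring
    have hN : N * (x1 - x2) = x1 * y2 - x2 * y1 := by rw [l1, l2]; ring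
    apply mul_left_cancel₀ h'
    linear_combination 4 * (x1 ^ 2 * y2 ^ 2 + x1 * x2 * y1 * y2 + x2 ^ 2 * y1 ^ 2) * hN +
      (y1 ^ 2 * y2 ^ 2 - (y1 ^ 2 + y1 * y2 + y2 ^ 2)) * hL - y2 ^ 3 * c1 + y1 ^ 3 * c2

section

variable (B : ValuationSubring ℂ)

theorem i1_four (h2 : B.valuation 2 = 1) : B.valuation 4 = 1 := by
  have e : (4 : ℂ) = 2 * 2 := by norm_num
  rw [e, map_mul, h2, one_mul]

theorem i1_three_le : B.valuation 3 ≤ 1 := by
  have e : (3 : ℂ) = 1 + 1 + 1 := by norm_num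
  rw [e]
  refine (B.valuation.map_add _ _).trans (max_le ((B.valuation.map_add _ _).trans (max_le ?_ ?_)) ?_) <;>
    rw [map_one]

/-- `|y|² = |x|³` for `|x| > 1` -/
theorem i1_y (h2 : B.valuation 2 = 1) {x y : ℂ} (c : y ^ 2 = 4 * x ^ 3 + 1) (hx : 1 < B.valuation x) :
    B.valuation y ^ 2 = B.valuation x ^ 3 := by
  have h1 : B.valuation (4 * x ^ 3) = B.valuation x ^ 3 := by
    rw [map_mul, i1_four B h2, one_mul, map_pow]
  have h3 : (1 : B.ValueGroup) < B.valuation x ^ 3 := one_lt_pow₀ hx (by norm_num)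
  rw [← map_pow, c, Valuation.map_add_eq_of_lt_left, h1]
  rw [h1, map_one]
  exact h3

/-- `|y| ≤ 1` for `|x| ≤ 1` -/
theorem i1_y_le (h2 : B.valuation 2 = 1) {x y : ℂ} (c : y ^ 2 = 4 * x ^ 3 + 1) (hx : B.valuation x ≤ 1) :
    B.valuation y ≤ 1 := by
  have h1 : B.valuation y ^ 2 ≤ 1 := by
    rw [← map_pow, c]
    refine (B.valuation.map_add _ _).trans (max_le ?_ (by rw [map_one]))
    rw [map_mul, i1_four B h2, one_mul, map_pow]
    exact pow_le_one₀ zero_le hx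
  by_contra h
  push Not at h
  exact absurd h1 (not_le.2 (one_lt_pow₀ h (by norm_num)))

theorem i1_y_ne (h2 : B.valuation 2 = 1) {x y : ℂ} (c : y ^ 2 = 4 * x ^ 3 + 1) (hx : 1 < B.valuation x) :
    y ≠ 0 := by
  rintro rfl
  have h := i1_y B h2 c hx
  rw [map_zero, zero_pow (by norm_num)] at h
  have h3 : (1 : B.ValueGroup) < B.valuation x ^ 3 := one_lt_pow₀ hx (by norm_num)
  rw [← h] at h3
  exact absurd h3 (not_lt.2 zero_le)

/-- `t = x/y`, `s = 1/y`: `|t|² |x| = 1`, `|s| = |t|³`, `0 < |t| < 1`. -/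
theorem i1_t (h2 : B.valuation 2 = 1) {x y : ℂ} (c : y ^ 2 = 4 * x ^ 3 + 1) (hx : 1 < B.valuation x) :
    0 < B.valuation (x / y) ∧ B.valuation (x / y) < 1 ∧ B.valuation (1 / y) = B.valuation (x / y) ^ 3 := by
  have hy := i1_y B h2 c hx
  have hy0 := i1_y_ne B h2 c hx
  have vx0 : B.valuation x ≠ 0 := fun h => by
    rw [h] at hx
    exact absurd hx (not_lt.2 zero_le)
  have vy0 : B.valuation y ≠ 0 := by
    rw [Valuation.ne_zero_iff]
    exact hy0
  have ht : B.valuation (x / y) = B.valuation x / B.valuation y := map_div₀ _ _ _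
  have h3 : B.valuation (x / y) ^ 2 * B.valuation x = 1 := by
    rw [ht, div_pow, hy]
    field_simp
  refine ⟨?_, ?_, ?_⟩
  · rw [ht]
    exact zero_lt_iff.2 (div_ne_zero vx0 vy0)
  · by_contra h
    push Not at h
    have h4 : (1 : B.ValueGroup) ≤ B.valuation (x / y) ^ 2 := one_le_pow₀ h
    have h5 : (1 : B.ValueGroup) < B.valuation (x / y) ^ 2 * B.valuation x :=
      lt_of_lt_of_le hx (le_mul_of_one_le_left' h4)
    rw [h3] at h5
    exact lt_irrefl _ h5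
  · rw [ht, map_div₀, map_one, div_pow, ← hy]
    field_simp

/-- the chord and tangent law in the kernel of reduction -/
theorem i1_core (h2 : B.valuation 2 = 1) {x1 y1 x2 y2 x3 y3 L N : ℂ} (c1 : y1 ^ 2 = 4 * x1 ^ 3 + 1)
    (c2 : y2 ^ 2 = 4 * x2 ^ 3 + 1) (c3 : y3 ^ 2 = 4 * x3 ^ 3 + 1)
    (l1 : y1 = L * x1 + N) (l2 : y2 = L * x2 + N) (l3 : y3 = L * x3 + N)
    (e1 : 4 * (x1 + x2 + x3) = L ^ 2)
    (e2 : 2 * (x1 * x2 + (x1 + x2) * x3) = -(L * N)) (e3 : 4 * (x1 * x2 * x3) = N ^ 2 - 1)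
    (hx1 : 1 < B.valuation x1) (hx2 : 1 < B.valuation x2) :
    1 < B.valuation x3 ∧ B.valuation (x1 / y1 + x2 / y2 + x3 / y3) <
      max (B.valuation (x1 / y1)) (B.valuation (x2 / y2)) := by
  obtain ⟨t1p, t1l, s1t⟩ := i1_t B h2 c1 hx1
  obtain ⟨t2p, t2l, s2t⟩ := i1_t B h2 c2 hx2
  have y10 := i1_y_ne B h2 c1 hx1
  have y20 := i1_y_ne B h2 c2 hx2
  obtain ⟨g, hg⟩ : ∃ g, g = max (B.valuation (x1 / y1)) (B.valuation (x2 / y2)) := ⟨_, rfl⟩
  rw [← hg]
  have g1 : B.valuation (x1 / y1) ≤ g := by rw [hg]; exact le_max_left _ _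
  have g2 : B.valuation (x2 / y2) ≤ g := by rw [hg]; exact le_max_right _ _
  have gl : g < 1 := by rw [hg]; exact max_lt t1l t2l
  have gp : 0 < g := lt_of_lt_of_le t1p g1
  have hα := i1_alpha c1 c2 l1 l2 e1 e2
  have ht1 : x1 = x1 / y1 * y1 := by field_simp
  have ht2 : x2 = x2 / y2 * y2 := by field_simp
  generalize x1 / y1 = t1 at *
  generalize x2 / y2 = t2 at *
  have s1l : B.valuation (1 / y1) ≤ g ^ 3 := by rw [s1t]; exact pow_le_pow_left₀ zero_le g1 3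
  have s2l : B.valuation (1 / y2) ≤ g ^ 3 := by rw [s2t]; exact pow_le_pow_left₀ zero_le g2 3
  have g3l : g ^ 3 < 1 := pow_lt_one₀ zero_le gl (by norm_num)
  have g2l : g ^ 2 < 1 := pow_lt_one₀ zero_le gl (by norm_num)
  obtain ⟨s1, hs1⟩ : ∃ s1, s1 = 1 / y1 := ⟨_, rfl⟩
  obtain ⟨s2, hs2⟩ : ∃ s2, s2 = 1 / y2 := ⟨_, rfl⟩
  have s1y : s1 * y1 = 1 := by rw [hs1]; field_simp
  have s2y : s2 * y2 = 1 := by rw [hs2]; field_simp
  rw [← hs1] at s1l s1t
  rw [← hs2] at s2l s2t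
  -- the denominator
  have vD : B.valuation (1 - (s1 ^ 2 + s1 * s2 + s2 ^ 2)) = 1 := by
    apply Valuation.map_one_sub_of_lt
    have k1 : B.valuation s1 < 1 := lt_of_le_of_lt s1l g3l
    have k2 : B.valuation s2 < 1 := lt_of_le_of_lt s2l g3l
    refine lt_of_le_of_lt (B.valuation.map_add _ _) (max_lt (lt_of_le_of_lt (B.valuation.map_add _ _)
      (max_lt ?_ ?_)) ?_)
    · rw [map_pow]; exact pow_lt_one₀ zero_le k1 (by norm_num)
    · rw [map_mul]; exact mul_lt_one_of_nonneg_of_lt_one_left zero_le k1 k2.le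
    · rw [map_pow]; exact pow_lt_one₀ zero_le k2 (by norm_num)
  obtain ⟨D, hD⟩ : ∃ D, D = 1 - (s1 ^ 2 + s1 * s2 + s2 ^ 2) := ⟨_, rfl⟩
  rw [← hD] at vD
  have D0 : D ≠ 0 := by
    rintro rfl
    rw [map_zero] at vD
    exact zero_ne_one vD
  obtain ⟨α, hαd⟩ : ∃ α, α = 4 * (t1 ^ 2 + t1 * t2 + t2 ^ 2) / D := ⟨_, rfl⟩
  have hαD : α * D = 4 * (t1 ^ 2 + t1 * t2 + t2 ^ 2) := by rw [hαd]; field_simp
  have vα : B.valuation α ≤ g ^ 2 := by
    rw [hαd, map_div₀, vD, div_one, map_mul, i1_four B h2, one_mul]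
    refine (B.valuation.map_add _ _).trans (max_le ((B.valuation.map_add _ _).trans
      (max_le ?_ ?_)) ?_)
    · rw [map_pow]; exact pow_le_pow_left₀ zero_le g1 2
    · rw [map_mul, pow_two]; exact mul_le_mul' g1 g2
    · rw [map_pow]; exact pow_le_pow_left₀ zero_le g2 2
  have vβ : B.valuation (s1 - α * t1) ≤ g ^ 3 := by
    refine (B.valuation.map_sub _ _).trans (max_le s1l ?_)
    rw [map_mul, show g ^ 3 = g ^ 2 * g from pow_succ g 2]
    exact mul_le_mul' vα g1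
  obtain ⟨β, hβ⟩ : ∃ β, β = s1 - α * t1 := ⟨_, rfl⟩
  rw [← hβ] at vβ
  have hαN : α * N = -L := by
    have h5 : 4 * N * (t1 ^ 2 + t1 * t2 + t2 ^ 2) + L * D = 0 := by
      have h6 : y1 ^ 2 * y2 ^ 2 * (4 * N * (t1 ^ 2 + t1 * t2 + t2 ^ 2) + L * D) = 0 := by
        rw [← hα, hD]
        have e4 : x1 ^ 2 = t1 ^ 2 * y1 ^ 2 := by rw [← mul_pow, ← ht1]
        have e5 : x2 ^ 2 = t2 ^ 2 * y2 ^ 2 := by rw [← mul_pow, ← ht2]
        have e6 : x1 * x2 = t1 * y1 * (t2 * y2) := by rw [← ht1, ← ht2]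
        have e7 : s1 ^ 2 * y1 ^ 2 = 1 := by rw [← mul_pow, s1y, one_pow]
        have e8 : s2 ^ 2 * y2 ^ 2 = 1 := by rw [← mul_pow, s2y, one_pow]
        have e9 : s1 * s2 * (y1 * y2) = 1 := by
          have : s1 * s2 * (y1 * y2) = (s1 * y1) * (s2 * y2) := by ring
          rw [this, s1y, s2y, one_mul]
        rw [e4, e5, e6]
        linear_combination (-L * y2 ^ 2) * e7 - L * y1 ^ 2 * e8 - L * y1 * y2 * e9
      exact (mul_eq_zero.1 h6).resolve_left (mul_ne_zero (pow_ne_zero 2 y10) (pow_ne_zero 2 y20))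
    apply mul_right_cancel₀ D0
    linear_combination N * hαD + h5
  have hβN : β * N = 1 := by
    apply mul_right_cancel₀ y10
    have h5 : β * y1 = 1 - α * x1 := by
      rw [hβ]
      linear_combination s1y + α * ht1
    linear_combination N * h5 - x1 * hαN - l1
  have hαβ : α = -(β * L) := by
    linear_combination -α * hβN + β * hαN
  have h1 : α * x3 + β * y3 = 1 := by
    rw [l3]
    linear_combination x3 * hαβ + hβN
  have vx3 : 1 < B.valuation x3 := by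
    by_contra h
    push Not at h
    have h5 := i1_y_le B h2 c3 h
    have h6 : B.valuation (α * x3 + β * y3) < 1 := by
      refine lt_of_le_of_lt (B.valuation.map_add _ _) (max_lt ?_ ?_)
      · rw [map_mul]
        exact lt_of_le_of_lt (mul_le_mul' vα h) (by rwa [mul_one])
      · rw [map_mul]
        exact lt_of_le_of_lt (mul_le_mul' vβ h5) (by rwa [mul_one])
    rw [h1, map_one] at h6
    exact lt_irrefl _ h6
  refine ⟨vx3, ?_⟩
  have y30 := i1_y_ne B h2 c3 vx3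
  have ht3 : x3 = x3 / y3 * y3 := by field_simp
  generalize x3 / y3 = t3 at *
  have h4y : 4 * (y1 * y2 * y3) = 4 * N ^ 3 - L ^ 3 := by
    rw [l1, l2, l3]
    linear_combination L ^ 3 * e3 + 2 * L ^ 2 * N * e2 + L * N ^ 2 * e1
  have h4x : 4 * (x1 * y2 * y3 + x2 * y1 * y3 + x3 * y1 * y2) = -3 * L ^ 2 := by
    rw [l1, l2, l3]
    linear_combination 3 * L ^ 2 * e3 + 4 * L * N * e2 + N ^ 2 * e1
  have h5 : (t1 + t2 + t3) * (4 * N ^ 3 - L ^ 3) = -3 * L ^ 2 := by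
    rw [← h4y, ← h4x]
    linear_combination (-4 * y2 * y3) * ht1 - 4 * y1 * y3 * ht2 - 4 * y1 * y2 * ht3
  have h6 : (t1 + t2 + t3) * (4 + α ^ 3) = -3 * β * α ^ 2 := by
    have h7 : (4 : ℂ) = 4 * (β * N) ^ 3 := by rw [hβN]; ring
    rw [h7, hαβ]
    linear_combination β ^ 3 * h5
  have h8 : B.valuation (4 + α ^ 3) = 1 := by
    rw [Valuation.map_add_eq_of_lt_left, i1_four B h2]
    rw [i1_four B h2, map_pow]
    exact pow_lt_one₀ zero_le (lt_of_le_of_lt vα g2l) (by norm_num)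
  have h9 : B.valuation (t1 + t2 + t3) = B.valuation (-3 * β * α ^ 2) := by
    rw [← h6, map_mul, h8, mul_one]
  rw [h9, map_mul, map_mul, Valuation.map_neg, map_pow]
  calc B.valuation 3 * B.valuation β * B.valuation α ^ 2 ≤ 1 * g ^ 3 * 1 := by
        refine mul_le_mul' (mul_le_mul' (i1_three_le B) vβ) ?_
        exact pow_le_one₀ zero_le (vα.trans g2l.le)
    _ = g * g ^ 2 := by rw [one_mul, mul_one, ← pow_succ']
    _ < g * 1 := mul_lt_mul_of_pos_left g2l gp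
    _ = g := mul_one g

end

end JZ
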