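import Pool.Agent.CUL.V3

/-!
# [JZ-A1] `x ≡ r mod λ` at the points of order prime to `3`, `4 r³ = -1`
-/

set_option autoImplicit false

open scoped Classical ComplexConjugate

namespace JZ

open CM27 CU CUL

section

variable (A : ValuationSubring ℂ) (hA : A.valuation 3 < 1)
include hA

theorem a1_four : A.valuation 4 = 1 := by
  have := w_int_unit A hA 4 (by decide)
  simpa using this

theorem a1_two : A.valuation 2 = 1 := by
  have := w_int_unit A hA 2 (by decide)
  simpa using this

theorem a1_r {r : ℂ} (hr : 4 * r ^ 3 = -1) : A.valuation r = 1 := by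
  have h1 : A.valuation r ^ 3 = 1 := by
    have h2 : A.valuation (4 * r ^ 3) = 1 := by rw [hr, Valuation.map_neg, map_one]
    rwa [map_mul, a1_four A hA, one_mul, map_pow] at h2
  exact (pow_eq_one_iff.1 h1).resolve_right (by norm_num)

/-- `r ≡ -1` -/
theorem a1_r_one {r : ℂ} (hr : 4 * r ^ 3 = -1) : A.valuation (r + 1) < 1 := by
  have hl := w_la_lt A hA
  have h1 : (r + 1) * ((r + w) * (r + w ^ 2)) = 3 / 4 := by
    have h3 := w3
    have h2 := w2
    linear_combination (1 / 4) * hr + (r ^ 2 + r) * h2 + (r + 1) * h3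
  have e1 : r + w = (r + 1) - emb la := by rw [emb_la]; ring
  have e2 : r + w ^ 2 = (r + 1) - emb la * (1 + w) := by rw [emb_la]; ring
  by_contra hc
  push Not at hc
  have v2 : A.valuation (emb la * (1 + w)) < 1 := by
    have : (1 : ℂ) + w = emb (1 + om) := by rw [map_add, map_one, CUL.emb_om]
    rw [this, map_mul]
    exact lt_of_le_of_lt (mul_le_mul' le_rfl (w_emb_le A _)) (by rwa [mul_one])
  have f1 : A.valuation (r + w) = A.valuation (r + 1) := by
    rw [e1]
    exact Valuation.map_sub_eq_of_lt_left _ (lt_of_lt_of_le hl hc)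
  have f2 : A.valuation (r + w ^ 2) = A.valuation (r + 1) := by
    rw [e2]
    exact Valuation.map_sub_eq_of_lt_left _ (lt_of_lt_of_le v2 hc)
  have h5 : A.valuation ((r + 1) * ((r + w) * (r + w ^ 2))) < 1 := by
    rw [h1, map_div₀, a1_four A hA, div_one]
    exact hA
  rw [map_mul, map_mul, f1, f2] at h5
  exact absurd h5 (not_lt.2 (one_le_mul hc (one_le_mul hc hc)))

theorem a1_step {r : ℂ} (hr : 4 * r ^ 3 = -1) {z : ℂ} (h : OT z)
    (hc : A.valuation (emb la) < A.valuation (xw z - r)) :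
    A.valuation (xw z - r) ^ 3 ≤ A.valuation (emb la) ^ 2 *
      max (A.valuation (xw z - r)) (A.valuation (xw (emb la * z) - r)) := by
  have vr := a1_r A hA hr
  have vx := w_x A hA h
  have vx' := w_x A hA (u7_la_mul h)
  have hx0 := u7_ne h
  have h1 : xw (emb la * z) * (emb la ^ 2 * xw z ^ 2) = xw z ^ 3 + 1 := by
    rw [xw_la]
    exact div_mul_cancel₀ _ (mul_ne_zero (pow_ne_zero 2 la_ne) (pow_ne_zero 2 hx0))
  have hl2 := la_sq
  obtain ⟨x, hx⟩ : ∃ x, x = xw z := ⟨_, rfl⟩
  obtain ⟨x', hx'⟩ : ∃ x', x' = xw (emb la * z) := ⟨_, rfl⟩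
  rw [← hx, ← hx'] at h1
  rw [← hx] at hc vx ⊢
  rw [← hx'] at vx' ⊢
  have h3 := w3
  have h2 := w2
  have e : (x - r) * ((x - w * r) * (x - w ^ 2 * r)) = emb la ^ 2 * ((x ^ 2 - r ^ 2) * x' +
      r ^ 2 * (x' - r) + (1 - w ^ 2) * r ^ 3) := by
    have e1 : (x - r) * ((x - w * r) * (x - w ^ 2 * r)) = x ^ 3 - r ^ 3 := by
      linear_combination (-(x ^ 2 * r) + x * r ^ 2) * h2 + (x * r ^ 2 - r ^ 3) * h3
    rw [e1]
    linear_combination -h1 + w ^ 2 * r ^ 3 * hl2 - 3 * r ^ 3 * h3 - hr
  have e1 : x - w * r = (x - r) + emb la * r := by rw [emb_la]; ring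
  have e2 : x - w ^ 2 * r = (x - r) + emb la * (1 + w) * r := by rw [emb_la]; ring
  have vw : A.valuation (1 + w) ≤ 1 := by
    have : (1 : ℂ) + w = emb (1 + om) := by rw [map_add, map_one, CUL.emb_om]
    rw [this]
    exact w_emb_le A _
  have f1 : A.valuation (x - w * r) = A.valuation (x - r) := by
    rw [e1]
    apply Valuation.map_add_eq_of_lt_left
    rwa [map_mul, vr, mul_one]
  have f2 : A.valuation (x - w ^ 2 * r) = A.valuation (x - r) := by
    rw [e2]
    apply Valuation.map_add_eq_of_lt_left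
    rw [map_mul, map_mul, vr, mul_one]
    exact lt_of_le_of_lt (mul_le_mul' le_rfl vw) (by rwa [mul_one])
  have e3 : A.valuation (x - r) ^ 3 = A.valuation ((x - r) * ((x - w * r) * (x - w ^ 2 * r))) := by
    rw [map_mul, map_mul, f1, f2, ← mul_assoc, ← pow_two, ← pow_succ]
  rw [e3, e, map_mul, map_pow]
  refine mul_le_mul' le_rfl ?_
  refine (A.valuation.map_add _ _).trans (max_le ((A.valuation.map_add _ _).trans (max_le ?_ ?_)) ?_)
  · refine le_trans ?_ (le_max_left _ _)
    have e4 : (x ^ 2 - r ^ 2) * x' = (x - r) * ((x + r) * x') := by ring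
    rw [e4, map_mul]
    calc A.valuation (x - r) * A.valuation ((x + r) * x') ≤ A.valuation (x - r) * 1 := by
          refine mul_le_mul' le_rfl ?_
          rw [map_mul, vx', mul_one]
          exact (A.valuation.map_add _ _).trans (max_le vx.le vr.le)
      _ = _ := mul_one _
  · refine le_trans ?_ (le_max_right _ _)
    rw [map_mul, map_pow, vr, one_pow, one_mul]
  · refine le_trans ?_ (le_max_left _ _)
    have e4 : (1 - w ^ 2) * r ^ 3 = emb la * (1 + w) * r ^ 3 := by rw [emb_la]; ring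
    rw [e4, map_mul, map_mul, map_pow, vr, one_pow, mul_one]
    calc A.valuation (emb la) * A.valuation (1 + w) ≤ A.valuation (emb la) * 1 := mul_le_mul' le_rfl vw
      _ ≤ _ := by rw [mul_one]; exact hc.le

/-- [JZ-A1] -/
theorem x_sub_r {r : ℂ} (hr : 4 * r ^ 3 = -1) {z : ℂ} (h : OT z) :
    A.valuation (xw z - r) ≤ A.valuation (emb la) := by
  by_contra hc
  push Not at hc
  have hl := w_la_lt A hA
  have hl0 : 0 < A.valuation (emb la) := by
    rw [Valuation.pos_iff]
    exact la_ne
  obtain ⟨N, hN, a, ha⟩ := h.exists_pow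
  -- a maximum over one period
  obtain ⟨m, hm, hmax⟩ := Finset.exists_max_image (Finset.range N)
    (fun n => A.valuation (xw (emb la ^ n * z) - r)) ⟨0, Finset.mem_range.2 hN⟩
  have h0 := hmax 0 (Finset.mem_range.2 hN)
  rw [pow_zero, one_mul] at h0
  have hOT : OT (emb la ^ m * z) := h.la_mul m
  have hbig : A.valuation (emb la) < A.valuation (xw (emb la ^ m * z) - r) := lt_of_lt_of_le hc h0
  have hnext : A.valuation (xw (emb la * (emb la ^ m * z)) - r) ≤
      A.valuation (xw (emb la ^ m * z) - r) := by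
    have e : emb la * (emb la ^ m * z) = emb la ^ (m + 1) * z := by ring
    rw [e]
    by_cases hmN : m + 1 < N
    · exact hmax (m + 1) (Finset.mem_range.2 hmN)
    · have hmN' : m + 1 = N := by
        have := Finset.mem_range.1 hm
        omega
      have e2 : emb la ^ (m + 1) * z = z + emb a := by
        rw [hmN', ha]
        ring
      rw [e2, xw_add]
      exact h0
  have h3 := a1_step A hA hr hOT hbig
  rw [max_eq_left hnext] at h3
  obtain ⟨b, hb⟩ : ∃ b, b = A.valuation (xw (emb la ^ m * z) - r) := ⟨_, rfl⟩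
  rw [← hb] at h3 hbig
  have hb0 : 0 < b := lt_trans hl0 hbig
  have h4 : A.valuation (emb la) ^ 2 * b < b ^ 2 * b :=
    mul_lt_mul_of_pos_right (pow_lt_pow_left₀ hbig zero_le (by norm_num)) hb0
  rw [← pow_succ] at h4
  exact absurd h3 (not_le.2 h4)

end

end JZ
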