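import Pool.Agent.JZ.LA1

/-!
# [JZ-A2] the sum `T` modulo the maximal ideal
-/

set_option autoImplicit false

open scoped Classical ComplexConjugate

namespace JZ

open CM27 CU CUL

/-- `W = X³ - ω² r² X - ω² r λ X²` -/
def a2_W {O : Type*} [CommRing O] (w r X : O) : O :=
  X ^ 3 - w ^ 2 * r ^ 2 * X - w ^ 2 * r * (1 - w) * X ^ 2

/-- `-ω² + 4 λ W` -/
def a2_u {O : Type*} [CommRing O] (w r X : O) : O := -w ^ 2 + 4 * (1 - w) * a2_W w r X

theorem a2_one_add {O : Type*} [CommRing O] {w r : O} (hw : w ^ 2 = -1 - w) (hr : 4 * r ^ 3 = -1) (X : O) :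
    4 * (1 + (r + (1 - w) * X) ^ 3) = (1 - w) ^ 2 * a2_u w r X := by
  unfold a2_u a2_W
  have h3 : w ^ 3 = 1 := by linear_combination (w - 1) * hw
  have h : (3 : O) = -(w ^ 2 * (1 - w) ^ 2) := by linear_combination (w - 2) * h3 + hw
  linear_combination hr + (1 + 4 * r ^ 2 * (1 - w) * X + 4 * r * (1 - w) ^ 2 * X ^ 2) * h

/-- the coefficient `b_k` -/
def a2_b {O : Type*} [CommRing O] (w r X U : O) : ℕ → O
  | 0 => 16 * w * a2_W w r X * U
  | 1 => 16 * w * r * a2_W w r X * U + 4 * X * U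
  | 2 => 16 * w * r ^ 2 * a2_W w r X * U + 8 * r * X * U + 4 * (1 - w) * X ^ 2 * U
  | _ => 0

/-- the constant coefficient -/
def a2_a {O : Type*} [CommRing O] (w r : O) (k : ℕ) : O := -4 * w * r ^ k

theorem a2_U {O : Type*} [CommRing O] {w r X U : O} (hw : w ^ 2 = -1 - w) (hU : a2_u w r X * U = 1) :
    U = -w + 4 * w * (1 - w) * a2_W w r X * U := by
  have h3 : w ^ 3 = 1 := by linear_combination (w - 1) * hw
  unfold a2_u at hU
  linear_combination (-w) * hU - U * h3

theorem a2_expand {O : Type*} [CommRing O] {w r X U : O} (hw : w ^ 2 = -1 - w) (hU : a2_u w r X * U = 1)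
    {k : ℕ} (hk : k < 3) :
    4 * (r + (1 - w) * X) ^ k * U = a2_a w r k + (1 - w) * a2_b w r X U k := by
  have h := a2_U hw hU
  unfold a2_a a2_b
  interval_cases k
  · simp only
    linear_combination 4 * h
  · simp only
    linear_combination 4 * r * h
  · simp only
    linear_combination 4 * r ^ 2 * h

/-- the residues -/
def a2_p {K : Type*} [CommRing K] (X : K) : ℕ → K
  | 0 => X - X ^ 3
  | 1 => X + X ^ 3
  | 2 => -X ^ 3
  | _ => 0

theorem a2_res {O K : Type*} [CommRing O] [CommRing K] (φ : O →+* K) (h3 : (3 : K) = 0) {w r X U : O}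
    (hw : φ w = 1) (hr : φ r = -1) (hU : φ U = -1) {k : ℕ} (hk : k < 3) :
    φ (a2_b w r X U k) = a2_p (φ X) k := by
  unfold a2_b a2_p a2_W
  interval_cases k
  · simp only [map_mul, map_sub, map_pow, map_ofNat, map_one, hw, hr, hU]
    linear_combination (-5 * (φ X) ^ 3 + 5 * φ X) * h3
  · simp only [map_mul, map_sub, map_add, map_pow, map_ofNat, map_one, hw, hr, hU]
    linear_combination (5 * (φ X) ^ 3 - 7 * φ X) * h3
  · simp only [map_mul, map_sub, map_add, map_pow, map_ofNat, map_one, hw, hr, hU]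
    linear_combination (-5 * (φ X) ^ 3 + 8 * φ X) * h3


section

variable (A : ValuationSubring ℂ) (hA : A.valuation 3 < 1)

/-- the residue map -/
noncomputable abbrev rsd : A →+* IsLocalRing.ResidueField A := IsLocalRing.residue A

theorem rsd_eq_zero (x : A) : rsd A x = 0 ↔ A.valuation (x : ℂ) < 1 := by
  rw [rsd, IsLocalRing.residue_eq_zero_iff]
  exact ValuationSubring.valuation_lt_one_iff A x

theorem rsd_eq (x y : A) : rsd A x = rsd A y ↔ A.valuation ((x : ℂ) - y) < 1 := by
  rw [← sub_eq_zero, ← map_sub, rsd_eq_zero]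
  push_cast
  exact Iff.rfl

include hA in
theorem rsd_three : (3 : IsLocalRing.ResidueField A) = 0 := by
  have h : rsd A 3 = 0 := (rsd_eq_zero A 3).2 hA
  rwa [map_ofNat] at h

include hA in
theorem rsd_char : CharP (IsLocalRing.ResidueField A) 3 := by
  have : Fact (Nat.Prime 3) := ⟨Nat.prime_three⟩
  exact (CharP.charP_iff_prime_eq_zero Nat.prime_three).2 (by exact_mod_cast rsd_three A hA)

/-- the elements of `A` -/
noncomputable def wA : A := ⟨w, (ValuationSubring.valuation_le_one_iff A w).1 (w_w A).le⟩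

theorem wA_sq : wA A ^ 2 = -1 - wA A := by
  apply Subtype.ext
  push_cast
  exact w2

include hA in
theorem rsd_w : rsd A (wA A) = 1 := by
  rw [← map_one (rsd A), rsd_eq]
  have e : ((wA A : A) : ℂ) - ((1 : A) : ℂ) = -emb la := by
    rw [emb_la]
    show w - 1 = -(1 - w)
    ring
  rw [e, Valuation.map_neg]
  exact w_la_lt A hA

theorem coe_la : ((1 - wA A : A) : ℂ) = emb la := by
  rw [emb_la]
  rfl

variable {A} in
include hA in
/-- the unit `u` -/
theorem a2_unit (r X : A) : ∃ U : A, a2_u (wA A) r X * U = 1 := by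
  have h1 : rsd A (a2_u (wA A) r X) ≠ 0 := by
    unfold a2_u
    have hw := rsd_w A hA
    simp only [map_mul, map_sub, map_add, map_neg, map_pow, map_ofNat, map_one, hw]
    norm_num
  have h2 : IsUnit (a2_u (wA A) r X) := by
    by_contra h
    exact h1 ((IsLocalRing.residue_eq_zero_iff _).2 ((IsLocalRing.mem_maximalIdeal _).2 h))
  obtain ⟨u, hu⟩ := h2
  exact ⟨((u⁻¹ : Aˣ) : A), by rw [← hu, Units.mul_inv]⟩

include hA in
/-- [JZ-A2] the sum `T` modulo the maximal ideal -/
theorem a2_T {r : A} (hr : 4 * r ^ 3 = -1) (hr1 : rsd A r = -1) {ι : Type*} (s : Finset ι)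
    (X ψ χ : ι → A) (x : ι → ℂ) (hx : ∀ c ∈ s, x c = (r : ℂ) + emb la * (X c : ℂ)) {k : ℕ} (hk : k < 3)
    (hψ : ∑ c ∈ s, ψ c = 0) (hψχ : ∀ c ∈ s, rsd A (ψ c) = rsd A (χ c))
    (hχ : ∀ c ∈ s, χ c = 1 ∨ χ c = -1) :
    ∃ t : A, (t : ℂ) = emb la * ∑ c ∈ s, (ψ c : ℂ) * (x c ^ k / (1 + x c ^ 3)) ∧
      rsd A t = a2_p (rsd A (∑ c ∈ s, χ c * X c)) k := by
  have hla : emb la ≠ 0 := la_ne
  choose U hU using fun c => a2_unit hA r (X c)
  refine ⟨∑ c ∈ s, ψ c * a2_b (wA A) r (X c) (U c) k, ?_, ?_⟩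
  · -- the exact identity
    have h1 : ∀ c ∈ s, emb la ^ 2 * (x c ^ k / (1 + x c ^ 3)) =
        ((a2_a (wA A) r k + (1 - wA A) * a2_b (wA A) r (X c) (U c) k : A) : ℂ) := by
      intro c hc
      have e1 := congrArg (fun y : A => (y : ℂ)) (a2_one_add (wA_sq A) hr (X c))
      have e2 := congrArg (fun y : A => (y : ℂ)) (a2_expand (wA_sq A) (hU c) hk)
      have e3 := congrArg (fun y : A => (y : ℂ)) (hU c)
      rw [← e2]
      push_cast at e1 e3 ⊢
      have e4 : (1 : ℂ) - (wA A : ℂ) = emb la := by rw [emb_la]; rfl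
      rw [e4, ← hx c hc] at e1
      rw [e4, ← hx c hc]
      have hu0 : ((a2_u (wA A) r (X c) : A) : ℂ) ≠ 0 := by
        intro h
        rw [h, zero_mul] at e3
        exact zero_ne_one e3
      have h0 : (1 : ℂ) + x c ^ 3 ≠ 0 := by
        intro h
        rw [h, mul_zero] at e1
        exact mul_ne_zero (pow_ne_zero 2 hla) hu0 e1.symm
      rw [mul_div_assoc', div_eq_iff h0]
      linear_combination (-(x c ^ k) * (U c : ℂ)) * e1 - x c ^ k * emb la ^ 2 * e3
    have h2 : emb la ^ 2 * ∑ c ∈ s, (ψ c : ℂ) * (x c ^ k / (1 + x c ^ 3)) =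
        emb la * ((∑ c ∈ s, ψ c * a2_b (wA A) r (X c) (U c) k : A) : ℂ) := by
      have h3 : emb la ^ 2 * ∑ c ∈ s, (ψ c : ℂ) * (x c ^ k / (1 + x c ^ 3)) =
          ((∑ c ∈ s, ψ c * (a2_a (wA A) r k + (1 - wA A) * a2_b (wA A) r (X c) (U c) k) : A) : ℂ) := by
        rw [Finset.mul_sum]
        push_cast
        refine Finset.sum_congr rfl fun c hc => ?_
        have := h1 c hc
        push_cast at this
        rw [← this]
        ring
      rw [h3]
      have h4 : ∑ c ∈ s, ψ c * (a2_a (wA A) r k + (1 - wA A) * a2_b (wA A) r (X c) (U c) k) =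
          (1 - wA A) * ∑ c ∈ s, ψ c * a2_b (wA A) r (X c) (U c) k := by
        have h5 : ∀ c ∈ s, ψ c * (a2_a (wA A) r k + (1 - wA A) * a2_b (wA A) r (X c) (U c) k) =
            ψ c * a2_a (wA A) r k + (1 - wA A) * (ψ c * a2_b (wA A) r (X c) (U c) k) := by
          intro c _
          ring
        rw [Finset.sum_congr rfl h5, Finset.sum_add_distrib, ← Finset.sum_mul, hψ, zero_mul, zero_add,
          ← Finset.mul_sum]
      rw [h4, MulMemClass.coe_mul, coe_la]
    apply mul_left_cancel₀ hla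
    rw [← h2]
    ring
  · -- the residue
    have h3 := rsd_three A hA
    have hw := rsd_w A hA
    have hchar := rsd_char A hA
    have hfact : Fact (Nat.Prime 3) := ⟨Nat.prime_three⟩
    have hexp : ExpChar (IsLocalRing.ResidueField A) 3 := ExpChar.prime Nat.prime_three
    have hUr : ∀ c, rsd A (U c) = -1 := by
      intro c
      have := congrArg (rsd A) (hU c)
      unfold a2_u at this
      simp only [map_mul, map_sub, map_add, map_neg, map_pow, map_ofNat, map_one, hw] at this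
      linear_combination -this
    have h4 : ∀ c ∈ s, rsd A (ψ c * a2_b (wA A) r (X c) (U c) k) =
        rsd A (χ c) * a2_p (rsd A (X c)) k := by
      intro c hc
      rw [map_mul, hψχ c hc, a2_res (rsd A) h3 hw hr1 (hUr c) hk]
    rw [map_sum, Finset.sum_congr rfl h4]
    have h5 : ∀ c ∈ s, rsd A (χ c) * rsd A (X c) ^ 3 = (rsd A (χ c) * rsd A (X c)) ^ 3 := by
      intro c hc
      rcases hχ c hc with h | h
      · rw [h, map_one, one_mul, one_mul]
      · rw [h, map_neg, map_one]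
        ring
    have h6 : (rsd A (∑ c ∈ s, χ c * X c)) ^ 3 = ∑ c ∈ s, rsd A (χ c) * rsd A (X c) ^ 3 := by
      rw [map_sum, sum_pow_char 3]
      refine Finset.sum_congr rfl fun c hc => ?_
      rw [map_mul, h5 c hc]
    have h7 : rsd A (∑ c ∈ s, χ c * X c) = ∑ c ∈ s, rsd A (χ c) * rsd A (X c) := by
      rw [map_sum]
      exact Finset.sum_congr rfl fun c _ => map_mul _ _ _
    interval_cases k
    · simp only [a2_p]
      rw [h6, h7, ← Finset.sum_sub_distrib]
      exact Finset.sum_congr rfl fun c _ => by ring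
    · simp only [a2_p]
      rw [h6, h7, ← Finset.sum_add_distrib]
      exact Finset.sum_congr rfl fun c _ => by ring
    · simp only [a2_p]
      rw [h6, ← Finset.sum_neg_distrib]
      exact Finset.sum_congr rfl fun c _ => by ring

end

end JZ
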