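import Pool.Agent.JZ.LA2

/-!
# [JZ-A3] the product `e` modulo `λ 𝔪`
-/

set_option autoImplicit false

open scoped Classical ComplexConjugate

namespace JZ

open CM27 CU CUL

section

variable (A : ValuationSubring ℂ) (hA : A.valuation 3 < 1)

theorem a3_le (x : A) : A.valuation (x : ℂ) ≤ 1 := (ValuationSubring.valuation_le_one_iff A _).2 x.2

include hA in
theorem a3_inv (Y : A) : A.valuation ((1 + emb la * (Y : ℂ))⁻¹ - (1 - emb la * (Y : ℂ))) ≤
    A.valuation (emb la) ^ 2 ∧ A.valuation (1 + emb la * (Y : ℂ)) = 1 := by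
  have hl := w_la_lt A hA
  have h1 : A.valuation (emb la * (Y : ℂ)) < 1 := by
    rw [map_mul]
    exact lt_of_le_of_lt (mul_le_mul' le_rfl (a3_le A Y)) (by rwa [mul_one])
  have h2 : A.valuation (1 + emb la * (Y : ℂ)) = 1 := Valuation.map_one_add_of_lt _ h1
  refine ⟨?_, h2⟩
  have h0 : (1 : ℂ) + emb la * (Y : ℂ) ≠ 0 := by
    intro h
    rw [h, map_zero] at h2
    exact zero_ne_one h2
  have e : (1 + emb la * (Y : ℂ))⁻¹ - (1 - emb la * (Y : ℂ)) =
      emb la ^ 2 * (Y : ℂ) ^ 2 * (1 + emb la * (Y : ℂ))⁻¹ := by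
    field_simp
    ring
  rw [e, map_mul, map_mul, map_inv₀, h2, inv_one, mul_one, map_pow, map_pow]
  calc A.valuation (emb la) ^ 2 * A.valuation (Y : ℂ) ^ 2 ≤ A.valuation (emb la) ^ 2 * 1 :=
        mul_le_mul' le_rfl (pow_le_one₀ zero_le (a3_le A Y))
    _ = _ := mul_one _

include hA in
theorem a3_zpow (Y : A) {n : ℤ} (hn : n = 1 ∨ n = -1) :
    A.valuation ((1 + emb la * (Y : ℂ)) ^ n - 1 - emb la * ((n : ℂ) * (Y : ℂ))) ≤
      A.valuation (emb la) ^ 2 := by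
  rcases hn with rfl | rfl
  · rw [zpow_one]
    have : (1 : ℂ) + emb la * (Y : ℂ) - 1 - emb la * (((1 : ℤ) : ℂ) * (Y : ℂ)) = 0 := by
      push_cast
      ring
    rw [this, map_zero]
    exact zero_le
  · rw [zpow_neg_one]
    have : (1 + emb la * (Y : ℂ))⁻¹ - 1 - emb la * (((-1 : ℤ) : ℂ) * (Y : ℂ)) =
        (1 + emb la * (Y : ℂ))⁻¹ - (1 - emb la * (Y : ℂ)) := by
      push_cast
      ring
    rw [this]
    exact (a3_inv A hA Y).1

include hA in
theorem a3_prod {ι : Type*} (s : Finset ι) (Y : ι → A) (n : ι → ℤ) (hn : ∀ c ∈ s, n c = 1 ∨ n c = -1) :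
    A.valuation (∏ c ∈ s, (1 + emb la * (Y c : ℂ)) ^ n c - 1 -
      emb la * ∑ c ∈ s, ((n c : ℂ) * (Y c : ℂ))) ≤ A.valuation (emb la) ^ 2 := by
  have hl := w_la_lt A hA
  have hl2 : A.valuation (emb la) ^ 2 ≤ 1 := pow_le_one₀ zero_le hl.le
  induction s using Finset.induction_on with
  | empty => simp
  | insert a s ha ih =>
    have ih' := ih fun c hc => hn c (Finset.mem_insert_of_mem hc)
    have hna := hn a (Finset.mem_insert_self a s)
    have ha' := a3_zpow A hA (Y a) hna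
    rw [Finset.prod_insert ha, Finset.sum_insert ha]
    have vS : A.valuation (∑ c ∈ s, ((n c : ℂ) * (Y c : ℂ))) ≤ 1 := by
      rw [ValuationSubring.valuation_le_one_iff]
      exact sum_mem fun c _ => mul_mem (intCast_mem A _) (Y c).2
    have vY : A.valuation ((n a : ℂ) * (Y a : ℂ)) ≤ 1 := by
      rw [ValuationSubring.valuation_le_one_iff]
      exact mul_mem (intCast_mem A _) (Y a).2
    have vf : A.valuation ((1 + emb la * (Y a : ℂ)) ^ n a) = 1 := by
      rw [map_zpow₀, (a3_inv A hA (Y a)).2, one_zpow]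
    obtain ⟨P, hP⟩ : ∃ P, P = ∏ c ∈ s, (1 + emb la * (Y c : ℂ)) ^ n c := ⟨_, rfl⟩
    obtain ⟨S, hS⟩ : ∃ S, S = ∑ c ∈ s, ((n c : ℂ) * (Y c : ℂ)) := ⟨_, rfl⟩
    obtain ⟨f, hf⟩ : ∃ f, f = (1 + emb la * (Y a : ℂ)) ^ n a := ⟨_, rfl⟩
    obtain ⟨y, hy⟩ : ∃ y, y = (n a : ℂ) * (Y a : ℂ) := ⟨_, rfl⟩
    rw [← hP, ← hS] at ih'
    rw [← hf, ← hy] at ha'
    rw [← hP, ← hS, ← hf, ← hy]
    rw [← hS] at vS
    rw [← hy] at vY
    rw [← hf] at vf
    have e : f * P - 1 - emb la * (y + S) = f * (P - 1 - emb la * S) + (f - 1 - emb la * y) * (1 + emb la * S) +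
        emb la ^ 2 * (y * S) := by ring
    rw [e]
    refine (A.valuation.map_add _ _).trans (max_le ((A.valuation.map_add _ _).trans (max_le ?_ ?_)) ?_)
    · rw [map_mul, vf, one_mul]
      exact ih'
    · rw [map_mul]
      have : A.valuation (1 + emb la * S) ≤ 1 := by
        refine (A.valuation.map_add _ _).trans (max_le (by rw [map_one]) ?_)
        rw [map_mul]
        exact mul_le_one' hl.le vS
      calc A.valuation (f - 1 - emb la * y) * A.valuation (1 + emb la * S) ≤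
          A.valuation (emb la) ^ 2 * 1 := mul_le_mul' ha' this
        _ = _ := mul_one _
    · rw [map_mul, map_pow, map_mul]
      calc A.valuation (emb la) ^ 2 * (A.valuation y * A.valuation S) ≤ A.valuation (emb la) ^ 2 * 1 :=
            mul_le_mul' le_rfl (mul_le_one' vY vS)
        _ = _ := mul_one _

include hA in
/-- [JZ-A3] -/
theorem a3_e {r : A} (hr : 4 * r ^ 3 = -1) {ι : Type*} (s : Finset ι)
    (X : ι → A) (n : ι → ℤ) (x : ι → ℂ) (hx : ∀ c ∈ s, x c = (r : ℂ) + emb la * (X c : ℂ))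
    (hn : ∀ c ∈ s, n c = 1 ∨ n c = -1) (hn0 : ∑ c ∈ s, n c = 0) :
    ∃ B : A, emb la * (B : ℂ) = 1 - ∏ c ∈ s, x c ^ n c ∧
      rsd A B = rsd A (∑ c ∈ s, (n c : A) * X c) := by
  have hl := w_la_lt A hA
  have hrC : 4 * (r : ℂ) ^ 3 = -1 := by
    have := congrArg (fun y : A => (y : ℂ)) hr
    push_cast at this
    exact this
  have vr := a1_r A hA hrC
  have vr1 := a1_r_one A hA hrC
  have r0 : (r : ℂ) ≠ 0 := by
    intro h
    rw [h, map_zero] at vr
    exact zero_ne_one vr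
  -- `Y = X / r`
  have hinv : A.valuation ((r : ℂ)⁻¹) ≤ 1 := by rw [map_inv₀, vr, inv_one]
  obtain ⟨ri, hri⟩ : ∃ ri : A, (ri : ℂ) = (r : ℂ)⁻¹ :=
    ⟨⟨(r : ℂ)⁻¹, (ValuationSubring.valuation_le_one_iff A _).1 hinv⟩, rfl⟩
  have h1 := a3_prod A hA s (fun c => ri * X c) n hn
  have h2 : ∏ c ∈ s, x c ^ n c = ∏ c ∈ s, (1 + emb la * ((ri * X c : A) : ℂ)) ^ n c := by
    have h3 : ∀ c ∈ s, x c ^ n c = (r : ℂ) ^ n c * (1 + emb la * ((ri * X c : A) : ℂ)) ^ n c := by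
      intro c hc
      rw [hx c hc, ← mul_zpow]
      congr 1
      push_cast
      rw [hri]
      field_simp
    rw [Finset.prod_congr rfl h3, Finset.prod_mul_distrib]
    have h4 : ∏ c ∈ s, (r : ℂ) ^ n c = (r : ℂ) ^ ∑ c ∈ s, n c := by
      clear h1 h3 hn0 hx hn
      induction s using Finset.induction_on with
      | empty => simp
      | insert a s ha ih =>
        rw [Finset.prod_insert ha, Finset.sum_insert ha, ih, zpow_add₀ r0]
    rw [h4, hn0, zpow_zero, one_mul]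
  rw [← h2] at h1
  obtain ⟨e, he⟩ : ∃ e, e = ∏ c ∈ s, x c ^ n c := ⟨_, rfl⟩
  rw [← he] at h1 ⊢
  have hS : ∑ c ∈ s, ((n c : ℂ) * ((ri * X c : A) : ℂ)) =
      (r : ℂ)⁻¹ * ((∑ c ∈ s, (n c : A) * X c : A) : ℂ) := by
    push_cast
    rw [Finset.mul_sum]
    refine Finset.sum_congr rfl fun c _ => ?_
    rw [hri]
    ring
  rw [hS] at h1
  obtain ⟨SX, hSX⟩ : ∃ SX, SX = (∑ c ∈ s, (n c : A) * X c : A) := ⟨_, rfl⟩
  rw [← hSX] at h1 ⊢
  -- `B`
  have hl0 : A.valuation (emb la) ≠ 0 := by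
    rw [Valuation.ne_zero_iff]
    exact la_ne
  have h5 : A.valuation ((1 - e) / emb la - (SX : ℂ)) < 1 := by
    have e1 : (1 - e) / emb la - (SX : ℂ) =
        -((e - 1 - emb la * ((r : ℂ)⁻¹ * (SX : ℂ))) / emb la) - ((r : ℂ) + 1) * ((r : ℂ)⁻¹ * (SX : ℂ)) := by
      have := la_ne
      field_simp
      ring
    rw [e1]
    refine lt_of_le_of_lt (A.valuation.map_sub _ _) (max_lt ?_ ?_)
    · rw [Valuation.map_neg, map_div₀, div_eq_mul_inv]
      refine lt_of_le_of_lt (mul_le_mul' h1 le_rfl) ?_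
      rw [pow_two, mul_assoc, mul_inv_cancel₀ hl0, mul_one]
      exact hl
    · rw [map_mul, map_mul]
      exact lt_of_le_of_lt (mul_le_mul' le_rfl (mul_le_one' hinv (a3_le A _))) (by rwa [mul_one])
  have h6 : A.valuation ((1 - e) / emb la) ≤ 1 := by
    have e2 : (1 - e) / emb la = ((1 - e) / emb la - (SX : ℂ)) + (SX : ℂ) := by ring
    rw [e2]
    exact (A.valuation.map_add _ _).trans (max_le h5.le (a3_le A _))
  refine ⟨⟨(1 - e) / emb la, (ValuationSubring.valuation_le_one_iff A _).1 h6⟩, ?_, ?_⟩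
  · show emb la * ((1 - e) / emb la) = 1 - e
    have := la_ne
    field_simp
  · rw [rsd_eq]
    exact h5

end

end JZ
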